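import Pool.Agent.H895R3.NK.E7

/-!
# Consecutive integers avoiding prime factors in `(k, 2k)`: `n_k > k^d` for every fixed `d`

`n_k` is the least `n ≥ 2k` such that no prime `p` with `k < p < 2k` divides `(n-1)(n-2)⋯(n-k)`.
We prove the lower bound conjectured by Erdős: for every real `d` one has `n_k > k^d` for all
large `k`.  The proof uses sums over primes with the phase `ξ/p` (Vaughan's identity and the
derivative tests of van der Corput of every order) and the prime number theorem with a power of a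
logarithm in the error term.
-/

set_option autoImplicit false

namespace Pool.Agent.Results.MP_9698ab_nt.ErdosLowerBound

open Finset

/-- `n` is admissible for `k`: `n ≥ 2k`, and the product `(n-1)(n-2)⋯(n-k)` is divisible by no prime `p`
with `k < p < 2k`. -/
def Admissible (k n : ℕ) : Prop :=
  2 * k ≤ n ∧ ∀ p : ℕ, p.Prime → k < p → p < 2 * k → ¬ p ∣ ∏ i ∈ Finset.Icc 1 k, (n - i)

/-- `n_k`, the least admissible integer. -/
noncomputable def leastAdmissible (k : ℕ) : ℕ := sInf {n : ℕ | Admissible k n}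

/-- An admissible integer exists: twice the product of all the primes of `(k, 2k)`. -/
theorem exists_admissible (k : ℕ) (hk : 2 ≤ k) : ∃ n : ℕ, Admissible k n := by
  set P : ℕ := ∏ p ∈ (Finset.Ioo k (2 * k)).filter Nat.Prime, p with hP
  obtain ⟨p, hp, hkp, hp2⟩ := Nat.exists_prime_lt_and_le_two_mul k (by omega)
  have hp3 : p < 2 * k := by
    rcases hp2.lt_or_eq with h | h
    · exact h
    · exfalso
      rw [h] at hp
      have h2 := (Nat.prime_mul_iff.1 hp)
      rcases h2 with ⟨_, h3⟩ | ⟨_, h3⟩ <;> omega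
  have hmem : p ∈ (Finset.Ioo k (2 * k)).filter Nat.Prime := by
    rw [mem_filter, mem_Ioo]
    exact ⟨⟨hkp, hp3⟩, hp⟩
  have hpos : 0 < P := prod_pos fun q hq => ((mem_filter.1 hq).2).pos
  have hkP : k < P := lt_of_lt_of_le hkp (Nat.le_of_dvd hpos (dvd_prod_of_mem _ hmem))
  refine ⟨2 * P, by omega, fun q hq hq1 hq2 hdvd => ?_⟩
  rw [Prime.dvd_finsetProd_iff hq.prime] at hdvd
  obtain ⟨i, hi, hd⟩ := hdvd
  rw [mem_Icc] at hi
  have hqP : q ∣ P := dvd_prod_of_mem (fun p => p) (by
    rw [mem_filter, mem_Ioo]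
    exact ⟨⟨hq1, hq2⟩, hq⟩)
  have h1 : q ∣ 2 * P := dvd_mul_of_dvd_right hqP 2
  have h2 : q ∣ i := (Nat.dvd_sub_iff_right (by omega) h1).1 hd
  have h3 := Nat.le_of_dvd (by omega) h2
  omega

/-- **The lower bound conjectured by Erdős.** For every real `d` one has `n_k > k^d` for all large
`k`; moreover `n_k` is well defined for every `k ≥ 2`. -/
theorem result : (∀ k : ℕ, 2 ≤ k → Admissible k (leastAdmissible k)) ∧
    ∀ d : ℝ, ∃ k₀ : ℕ, ∀ k : ℕ, k₀ ≤ k → (k : ℝ) ^ d < leastAdmissible k := by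
  have hmem : ∀ k : ℕ, 2 ≤ k → Admissible k (leastAdmissible k) := by
    intro k hk
    have hne : {n : ℕ | Admissible k n}.Nonempty := exists_admissible k hk
    exact Nat.sInf_mem hne
  refine ⟨hmem, fun d => ?_⟩
  obtain ⟨k₀, h⟩ := Pool.Agent.H895R3.NK.lower_bound ⌈d⌉₊
  refine ⟨k₀ + 2, fun k hk => ?_⟩
  have h1 := h k (by omega) (leastAdmissible k) (hmem k (by omega))
  have hk1 : (1 : ℝ) ≤ k := by exact_mod_cast (by omega : 1 ≤ k)
  calc (k : ℝ) ^ d ≤ (k : ℝ) ^ ((⌈d⌉₊ : ℕ) : ℝ) :=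
        Real.rpow_le_rpow_of_exponent_le hk1 (Nat.le_ceil d)
    _ = ((k ^ ⌈d⌉₊ : ℕ) : ℝ) := by rw [Real.rpow_natCast]; push_cast; rfl
    _ < leastAdmissible k := by exact_mod_cast h1

end Pool.Agent.Results.MP_9698ab_nt.ErdosLowerBound
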